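import Pool.Agent.H223.EM.MDefs
import Pool.Agent.H965R2.SM_T1
import Pool.Agent.H306R2.EPLim
import Pool.Agent.H306R2.ZetaGrowth

set_option autoImplicit false

/-!
Eighth moment lower bound, task MF2: the final theorem from MF1, MN1, MN2, MN3.
-/

namespace Pool.Agent.H56R2.EM_MF2

open Finset Filter Topology MeasureTheory Complex
open Pool.Agent.H306R2 Pool.Agent.H306R2.SM Pool.Agent.H223.EM

noncomputable section

lemma zeta_bound (t : ℝ) (_ht : 0 ≤ t) : ‖riemannZeta (cl t)‖ ≤ 24 * (1 + t) ^ 2 := by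
  have h := zeta_norm_le (s := cl t) (by simp [cl]) (by
    have h1 : |(cl t - 1).re| ≤ ‖cl t - 1‖ := Complex.abs_re_le_norm _
    have h2 : |(cl t - 1).re| = 1 / 2 := by
      simp only [cl, Complex.sub_re, Complex.add_re, Complex.mul_re, Complex.ofReal_re,
        Complex.I_re, mul_zero, Complex.ofReal_im, Complex.I_im, mul_one, sub_self, add_zero,
        Complex.one_re]
      norm_num
    linarith)
  have h3 : ‖cl t‖ ≤ 1 / 2 + t := by
    unfold cl
    refine (norm_add_le _ _).trans ?_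
    rw [norm_mul, Complex.norm_real, Complex.norm_I, mul_one, Real.norm_of_nonneg _ht]
    norm_num
  refine h.trans ?_
  have h4 : (‖cl t‖ + 1) ^ 2 ≤ (2 * (1 + t)) ^ 2 := by
    apply pow_le_pow_left₀ (by positivity)
    linarith
  nlinarith

lemma zeta_cont : Continuous (fun t : ℝ => riemannZeta (cl t)) := by
  rw [continuous_iff_continuousAt]
  intro t
  have h1 : cl t ≠ 1 := by
    intro h
    have h2 := congrArg Complex.re h
    simp [cl] at h2
  have h3 : ContinuousAt cl t := by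
    unfold cl
    fun_prop
  exact ((differentiableAt_riemannZeta h1).continuousAt).comp h3

/-- MF2. The eighth moment lower bound from the inputs MN1, MN2, MN3 and MF1. -/
theorem eighth_moment_of
    (IW1_lim : Tendsto IW1n (𝓝[>] 0) (𝓝 (240289 / 42240 / (Nat.factorial 16 : ℝ))) ∧
      Tendsto IW1c (𝓝[>] 0) (𝓝 (240289 / 42240 / (Nat.factorial 16 : ℝ))))
    (IW2_lim : Tendsto IW2n (𝓝[>] 0) (𝓝 (15925 / 8192 / (Nat.factorial 16 : ℝ))) ∧
      Tendsto IW2c (𝓝[>] 0) (𝓝 (15925 / 8192 / (Nat.factorial 16 : ℝ))))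
    (IN_lim : Tendsto IN (𝓝[>] 0) (𝓝 (1225 / 16384 / (Nat.factorial 16 : ℝ))))
    (main_lower : ∀ (ε : ℝ), 0 < ε → ε < 1 / 8 → ∀ (w1c w2c w1n w2n n4 : ℝ),
      0 ≤ w1c + w2c → w1c < aF 4 * IW1c ε → w2c < aF 4 * IW2c ε →
      aF 4 * IW1n ε < w1n → aF 4 * IW2n ε < w2n → aF 4 * IN ε < n4 →
      ∀ᶠ T : ℝ in atTop, ∀ k : ℕ, kr' T k →
        (w1c + w2c) ^ 4 / (n4 * (w1n + w2n) ^ 2) * Real.log T ^ 16 ≤ M8 k T) :
    ∀ᶠ T : ℝ in atTop,
      779 * aF 4 / (Nat.factorial 16 : ℝ) * T * Real.log T ^ 16 ≤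
        ∫ t in (0 : ℝ)..T, ‖riemannZeta (1 / 2 + t * Complex.I)‖ ^ 8 := by
  have ha : 0 < aF 4 := aF_pos (by norm_num)
  have hF : (0 : ℝ) < (Nat.factorial 16 : ℝ) := by exact_mod_cast Nat.factorial_pos 16
  set F : ℝ := (Nat.factorial 16 : ℝ) with hFdef
  set a : ℝ := aF 4 with hadef
  set η : ℝ := 1 / 100000 with hη
  have hη0 : 0 < η := by rw [hη]; norm_num
  have hη1 : η < 1 := by rw [hη]; norm_num
  have hW1 : (0 : ℝ) < 240289 / 42240 / F := by positivity
  have hW2 : (0 : ℝ) < 15925 / 8192 / F := by positivity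
  have hN0 : (0 : ℝ) < 1225 / 16384 / F := by positivity
  have e1 := IW1_lim.1.eventually_lt_const
    (show 240289 / 42240 / F < 240289 / 42240 / F * (1 + η) by nlinarith)
  have e2 := IW1_lim.2.eventually_const_lt
    (show 240289 / 42240 / F * (1 - η) < 240289 / 42240 / F by nlinarith)
  have e3 := IW2_lim.1.eventually_lt_const
    (show 15925 / 8192 / F < 15925 / 8192 / F * (1 + η) by nlinarith)
  have e4 := IW2_lim.2.eventually_const_lt
    (show 15925 / 8192 / F * (1 - η) < 15925 / 8192 / F by nlinarith)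
  have e5 := IN_lim.eventually_lt_const
    (show 1225 / 16384 / F < 1225 / 16384 / F * (1 + η) by nlinarith)
  have e6 : ∀ᶠ ε : ℝ in 𝓝[>] 0, ε ∈ Set.Ioo (0 : ℝ) (1 / 8) :=
    Ioo_mem_nhdsGT (by norm_num)
  obtain ⟨ε, h1, h2, h3, h4, h5, h6⟩ := (e1.and (e2.and (e3.and (e4.and (e5.and e6))))).exists
  have hm := main_lower ε h6.1 h6.2 (a * (240289 / 42240 / F * (1 - η)))
    (a * (15925 / 8192 / F * (1 - η))) (a * (240289 / 42240 / F * (1 + η)))
    (a * (15925 / 8192 / F * (1 + η))) (a * (1225 / 16384 / F * (1 + η)))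
    (by
      have h7 : 0 < 1 - η := by linarith
      positivity)
    (mul_lt_mul_of_pos_left h2 ha) (mul_lt_mul_of_pos_left h4 ha)
    (mul_lt_mul_of_pos_left h1 ha) (mul_lt_mul_of_pos_left h3 ha)
    (mul_lt_mul_of_pos_left h5 ha)
  set c1 : ℝ := (a * (240289 / 42240 / F * (1 - η)) + a * (15925 / 8192 / F * (1 - η))) ^ 4 /
    (a * (1225 / 16384 / F * (1 + η)) *
      (a * (240289 / 42240 / F * (1 + η)) + a * (15925 / 8192 / F * (1 + η))) ^ 2) with hc1
  have hc1v : c1 = a / F * (((240289 / 42240 + 15925 / 8192) * (1 - η)) ^ 4 /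
      ((1225 / 16384 * (1 + η)) * ((240289 / 42240 + 15925 / 8192) * (1 + η)) ^ 2)) := by
    rw [hc1]
    have h8 : (1 + η) ≠ 0 := by linarith
    field_simp
  have hnum : (779 : ℝ) < ((240289 / 42240 + 15925 / 8192) * (1 - η)) ^ 4 /
      ((1225 / 16384 * (1 + η)) * ((240289 / 42240 + 15925 / 8192) * (1 + η)) ^ 2) := by
    rw [hη]
    norm_num
  have hc1c : 779 * a / F < c1 := by
    rw [hc1v]
    have h9 : 0 < a / F := by positivity
    calc 779 * a / F = a / F * 779 := by ring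
      _ < _ := mul_lt_mul_of_pos_left hnum h9
  have hc10 : 0 ≤ c1 := by
    refine le_trans ?_ hc1c.le
    positivity
  have hcont : Continuous (fun t : ℝ => ‖riemannZeta (cl t)‖ ^ 8) := (zeta_cont.norm).pow 8
  exact Pool.Agent.H965R2.SMT1.window_gamma (fun t : ℝ => ‖riemannZeta (cl t)‖ ^ 8) hcont
    (fun t => by positivity)
    ⟨24 ^ 8, 16, fun t ht => by
      calc ‖riemannZeta (cl t)‖ ^ 8 ≤ (24 * (1 + t) ^ 2) ^ 8 :=
            pow_le_pow_left₀ (norm_nonneg _) (zeta_bound t ht) 8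
        _ = _ := by ring⟩ c1 hc10 16 (by
      filter_upwards [hm] with T hT k hk1 hk2
      exact hT k ⟨hk1, hk2⟩) _ hc1c

end

end Pool.Agent.H56R2.EM_MF2
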