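import Pool.Agent.H923R2.FP.Stubs

/-! FIN: reindexing for powers of `C([0,1])`. -/

set_option autoImplicit false

noncomputable section

namespace Pool.Agent.H923R2.FP.T_FIN

open Pool.Agent.H923R2.FP

theorem t_FIN : S_FIN := by
  intro n A _ τ e h
  let φ : Option (Fin n) → Fin (n + 1) := fun o => o.elim (Fin.last n) Fin.castSucc
  have hφ : Function.Injective φ := by
    intro a b hab
    rcases a with _ | a <;> rcases b with _ | b
    · rfl
    · exact absurd hab.symm (Fin.castSucc_lt_last b).ne
    · exact absurd hab (Fin.castSucc_lt_last a).ne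
    · exact congrArg some (Fin.castSucc_injective n hab)
  have hS : ∀ o : Option (Fin n), (o.elim (e (Fin.last n)).range fun j => (e j.castSucc).range) =
      (e (φ o)).range := by
    intro o
    rcases o with _ | j <;> rfl
  refine ⟨h.fts, fun j x => h.tr j.castSucc x, fun x => h.tr (Fin.last n) x, ?_, ?_⟩
  · intro w hw hz hc
    have h1 := h.free (w.map fun z => (φ z.1, z.2)) (by simpa using hw) ?_ ?_
    · rw [List.map_map] at h1
      exact h1
    · intro z hz'
      rw [List.mem_map] at hz'
      obtain ⟨y, hy, rfl⟩ := hz'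
      obtain ⟨h2, h3⟩ := hz y hy
      simp only [hS] at h2
      exact ⟨h2, h3⟩
    · rw [List.isChain_map]
      exact hc.imp fun x y hxy => fun h4 => hxy (hφ h4)
  · have hU : ((⋃ j : Fin n, Set.range (e j.castSucc)) ∪ Set.range (e (Fin.last n))) =
        ⋃ j, Set.range (e j) := by
      ext x
      simp only [Set.mem_union, Set.mem_iUnion]
      constructor
      · rintro (⟨j, hj⟩ | hx)
        · exact ⟨j.castSucc, hj⟩
        · exact ⟨Fin.last n, hx⟩
      · rintro ⟨j, hj⟩
        induction j using Fin.lastCases with
        | last => exact Or.inr hj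
        | cast j => exact Or.inl ⟨j, hj⟩
    rw [hU]
    exact h.gen

end Pool.Agent.H923R2.FP.T_FIN
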